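import Pool.Agent.H.MP_054fd8_lc.A

namespace Pool.Agent.Results.MP_054fd8_lc.Yes
open Pool.Agent.H.MP_054fd8_lc Set

theorem result : ∃ (T : Set (List Bool)) (P : Set (ℕ → Bool)), ComputablePred (· ∈ T) ∧
    (∀ σ ∈ T, ∀ τ, τ <+: σ → τ ∈ T) ∧ P = {x | ∀ n, (List.range n).map x ∈ T} ∧
    (∀ x ∈ P, ∀ y ∈ P, x ≠ y → {n | x n = true ∧ y n = true}.Finite) ∧
    (∀ r : ℕ → Bool, Computable r → {n | r n = true}.Infinite →
      ∃ x ∈ P, Computable x ∧ {n | x n = true ∧ r n = true}.Infinite) ∧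
    {x ∈ P | Computable x ∧ {n | x n = true}.Infinite}.Infinite := by
  refine ⟨T, P, c_T, T_pre, rfl, fun x hx y hy ne => ?_, fun r h1 h2 => ?_, ?_⟩
  · by_contra h
    obtain ⟨a, rfl⟩ := inf_mem hx (Set.Infinite.mono (fun n hn => hn.1) h)
    obtain ⟨b, rfl⟩ := inf_mem hy (Set.Infinite.mono (fun n hn => hn.2) h)
    refine h ((((ad (a := a) (b := b) fun e => ne (congrArg χ e)).insert a).insert b).subset fun n hn => ?_)
    have h1 : n ∈ insert a (X a) := χ_set a ▸ hn.1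
    have h2 : n ∈ insert b (X b) := χ_set b ▸ hn.2
    exact h2.imp_right fun h2 => h1.imp_right fun h1 => ⟨h1, h2⟩
  · obtain ⟨e, he⟩ := maxi h1 h2
    exact ⟨χ e, χ_mem e, χ_comp (he.mono inter_subset_left), he.mono fun n hn =>
      ⟨(χ_set e ▸ .inr hn.1 : n ∈ {n | χ e n = true}), hn.2⟩⟩
  · refine (many.image (f := χ) fun a _ b _ e => ?_).mono ?_
    · have h1 : a ∈ insert b (X b) := χ_set b ▸ e ▸ (χ_set a ▸ .inl rfl : a ∈ {n | χ a n = true})
      have h2 : b ∈ insert a (X a) := χ_set a ▸ e ▸ (χ_set b ▸ .inl rfl : b ∈ {n | χ b n = true})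
      exact h1.elim id fun h1 => h2.elim Eq.symm fun h2 => absurd (X_gt h1) (X_gt h2).asymm
    · rintro _ ⟨e, he, rfl⟩
      exact ⟨χ_mem e, χ_comp he, χ_set e ▸ Set.Infinite.mono (subset_insert ..) he⟩

end Pool.Agent.Results.MP_054fd8_lc.Yes
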